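import Pool.Agent.H90.HW.Stmts

/-!
From affine systems in `m` variables to projective schemes in `ℙ^m`.
-/

namespace Pool.Agent.H90.HW

open Pool.Agent.H73.Zeta
open scoped LinearAlgebra.Projectivization

/-- Decomposition of the nonzero vectors by the position of the first nonzero coordinate. -/
theorem h86_first {K : Type} [Field K] [Finite K] (m : ℕ) (P : (Fin (m + 1) → K) → Prop)
    (hP : ∀ (a : Kˣ) (v : Fin (m + 1) → K), P (a • v) ↔ P v) :
    cnt (fun v : Fin (m + 1) → K => v ≠ 0 ∧ P v) = ((Nat.card K : ℤ) - 1) *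
      ∑ j : Fin (m + 1), cnt (fun x : Fin m → K =>
        (∀ i, Fin.castSucc i < j → x i = 0) ∧ P (j.insertNth (1 : K) x)) := by
  classical
  have := Fintype.ofFinite K
  have h1 : cnt (fun v : Fin (m + 1) → K => v ≠ 0 ∧ P v) =
      ∑ j : Fin (m + 1), cnt (fun v : Fin (m + 1) → K =>
        v j ≠ 0 ∧ (∀ i, i < j → v i = 0) ∧ P v) := by
    simp only [cnt_sum]
    rw [Finset.sum_comm]
    apply Finset.sum_congr rfl
    intro v _
    by_cases hPv : P v
    · by_cases hv : v = 0
      · subst hv
        simp
      · rw [if_pos ⟨hv, hPv⟩]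
        have hex : ∃ i, v i ≠ 0 := by
          by_contra hcon
          exact hv (funext fun i => not_not.1 (not_exists.1 hcon i))
        obtain ⟨j, hj, hmin⟩ := WellFounded.has_min (wellFounded_lt (α := Fin (m + 1)))
          {i | v i ≠ 0} hex
        have hmin' : ∀ i, i < j → v i = 0 := by
          intro i hi
          by_contra hne
          exact hmin i hne hi
        rw [Finset.sum_eq_single j]
        · rw [if_pos ⟨hj, hmin', hPv⟩]
        · intro i _ hij
          rw [if_neg]
          rintro ⟨hi, hi', -⟩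
          rcases lt_or_gt_of_ne hij with h | h
          · exact hi (hmin' i h)
          · exact hj (hi' j h)
        · intro h
          exact absurd (Finset.mem_univ _) h
    · rw [if_neg (fun h => hPv h.2)]
      symm
      apply Finset.sum_eq_zero
      intro j _
      rw [if_neg (fun h => hPv h.2.2)]
  rw [h1, Finset.mul_sum]
  apply Finset.sum_congr rfl
  intro j _
  rw [← cnt_equiv (Fin.insertNthEquiv (fun _ : Fin (m + 1) => K) j), cnt_prod]
  have h0 : ∀ c : K, cnt (fun x : Fin m → K =>
      (Fin.insertNthEquiv (fun _ : Fin (m + 1) => K) j) (c, x) j ≠ 0 ∧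
      (∀ i, i < j → (Fin.insertNthEquiv (fun _ : Fin (m + 1) => K) j) (c, x) i = 0) ∧
      P ((Fin.insertNthEquiv (fun _ : Fin (m + 1) => K) j) (c, x))) =
      if c = 0 then 0 else cnt (fun x : Fin m → K =>
        (∀ i, Fin.castSucc i < j → x i = 0) ∧ P (j.insertNth (1 : K) x)) := by
    intro c
    split_ifs with hc
    · subst hc
      unfold cnt
      have : IsEmpty {x : Fin m → K //
          (Fin.insertNthEquiv (fun _ : Fin (m + 1) => K) j) (0, x) j ≠ 0 ∧
          (∀ i, i < j → (Fin.insertNthEquiv (fun _ : Fin (m + 1) => K) j) (0, x) i = 0) ∧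
          P ((Fin.insertNthEquiv (fun _ : Fin (m + 1) => K) j) (0, x))} := by
        constructor
        rintro ⟨x, h, -⟩
        apply h
        simp [Fin.insertNthEquiv]
      simp
    · rw [← cnt_equiv (MulAction.toPerm (Units.mk0 c hc) : (Fin m → K) ≃ (Fin m → K))]
      apply cnt_congr
      intro x
      have h2 : (Fin.insertNthEquiv (fun _ : Fin (m + 1) => K) j)
          (c, (MulAction.toPerm (Units.mk0 c hc) : (Fin m → K) ≃ (Fin m → K)) x) =
          (Units.mk0 c hc) • (j.insertNth (1 : K) x : Fin (m + 1) → K) := by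
        funext i
        refine Fin.succAboveCases j ?_ (fun i => ?_) i
        · simp [Fin.insertNthEquiv, Units.smul_def]
        · simp [Fin.insertNthEquiv, Units.smul_def]
      rw [h2, hP]
      have h3 : ((Units.mk0 c hc) • (j.insertNth (1 : K) x : Fin (m + 1) → K)) j ≠ 0 := by
        simp [Units.smul_def, hc]
      constructor
      · rintro ⟨-, h4, h5⟩
        refine ⟨fun i hi => ?_, h5⟩
        have h6 := h4 (Fin.castSucc i) hi
        have h7 : j.succAbove i = Fin.castSucc i := Fin.succAbove_of_castSucc_lt _ _ hi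
        rw [← h7] at h6
        simpa [Units.smul_def, hc] using h6
      · rintro ⟨h4, h5⟩
        refine ⟨h3, fun i hi => ?_, h5⟩
        obtain ⟨i', rfl⟩ : ∃ i' : Fin m, i = Fin.castSucc i' := by
          have : i ≠ Fin.last m := fun h => by
            rw [h] at hi
            exact absurd hi (not_lt.2 (Fin.le_last j))
          exact ⟨i.castPred this, by simp⟩
        have h7 : j.succAbove i' = Fin.castSucc i' := Fin.succAbove_of_castSucc_lt _ _ hi
        rw [← h7]
        simp [h4 i' hi]
  rw [Finset.sum_congr rfl (fun c _ => h0 c), ← Finset.add_sum_erase _ _ (Finset.mem_univ (0 : K)),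
    if_pos rfl, zero_add]
  rw [Finset.sum_congr rfl (g := fun _ => cnt (fun x : Fin m → K =>
        (∀ i, Fin.castSucc i < j → x i = 0) ∧ P (j.insertNth (1 : K) x)))
    (fun c hc => if_neg (Finset.ne_of_mem_erase hc)), Finset.sum_const,
    Finset.card_erase_of_mem (Finset.mem_univ _), nsmul_eq_mul, Finset.card_univ,
    Nat.cast_sub Fintype.card_pos, Nat.card_eq_fintype_card]
  simp

/-- Finite sums in a closed class. -/
theorem h86_closed_sum {C : Counts → Prop} (hC : Closed C) {N₀ : Counts} (h₀ : C N₀)
    {ι : Type} (s : Finset ι) (N : ι → Counts) (h : ∀ i, C (N i)) :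
    C (fun p k => ∑ i ∈ s, N i p k) := by
  classical
  induction s using Finset.induction_on with
  | empty =>
    refine hC.congr (fun p k _ => ?_) (hC.add h₀ (hC.neg h₀))
    simp
  | insert a s ha ih =>
    refine hC.congr (fun p k _ => ?_) (hC.add (h a) ih)
    rw [Finset.sum_insert ha]

theorem bA (hA : SAffine) : SBA := by
  classical
  intro C hC m hS F hF N hN
  have aff := hA C hC m hS
  let φ : Fin (m + 1) → MvPolynomial (Fin (m + 1)) ℤ → MvPolynomial (Fin m) ℤ := fun j f =>
    MvPolynomial.aeval (j.insertNth (1 : MvPolynomial (Fin m) ℤ) MvPolynomial.X :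
      Fin (m + 1) → MvPolynomial (Fin m) ℤ) f
  have hφ : ∀ (K : Type) [Field K] (j : Fin (m + 1)) (f : MvPolynomial (Fin (m + 1)) ℤ)
      (x : Fin m → K), MvPolynomial.aeval x (φ j f) =
        MvPolynomial.aeval (j.insertNth (1 : K) x : Fin (m + 1) → K) f := by
    intro K _ j f x
    have h1 : (MvPolynomial.aeval x).comp (MvPolynomial.aeval
        (j.insertNth (1 : MvPolynomial (Fin m) ℤ) MvPolynomial.X :
          Fin (m + 1) → MvPolynomial (Fin m) ℤ)) =
        (MvPolynomial.aeval (j.insertNth (1 : K) x : Fin (m + 1) → K) :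
          MvPolynomial (Fin (m + 1)) ℤ →ₐ[ℤ] K) := by
      apply MvPolynomial.algHom_ext
      intro i
      refine Fin.succAboveCases j ?_ (fun i => ?_) i
      · simp
      · simp
    exact DFunLike.congr_fun h1 f
  let G : Fin (m + 1) → Finset (MvPolynomial (Fin m) ℤ) := fun j =>
    F.image (φ j) ∪ (Finset.univ.filter (fun i : Fin m => Fin.castSucc i < j)).image
      MvPolynomial.X
  have hG : ∀ (K : Type) [Field K] (j : Fin (m + 1)) (x : Fin m → K),
      (∀ g ∈ G j, MvPolynomial.aeval x g = 0) ↔ ((∀ i, Fin.castSucc i < j → x i = 0) ∧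
        ∀ f ∈ F, MvPolynomial.aeval (j.insertNth (1 : K) x : Fin (m + 1) → K) f = 0) := by
    intro K _ j x
    constructor
    · intro h
      refine ⟨fun i hi => ?_, fun f hf => ?_⟩
      · have := h (MvPolynomial.X i) (Finset.mem_union_right _ (Finset.mem_image.2
          ⟨i, Finset.mem_filter.2 ⟨Finset.mem_univ _, hi⟩, rfl⟩))
        rwa [MvPolynomial.aeval_X] at this
      · rw [← hφ]
        exact h _ (Finset.mem_union_left _ (Finset.mem_image.2 ⟨f, hf, rfl⟩))
    · rintro ⟨h1, h2⟩ g hg
      rcases Finset.mem_union.1 hg with hg | hg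
      · obtain ⟨f, hf, rfl⟩ := Finset.mem_image.1 hg
        rw [hφ]
        exact h2 f hf
      · obtain ⟨i, hi, rfl⟩ := Finset.mem_image.1 hg
        rw [MvPolynomial.aeval_X]
        exact h1 i (Finset.mem_filter.1 hi).2
  have hsum : C (fun p k => ∑ j : Fin (m + 1),
      (cnt (fun x : Fin m → FF p k => ∀ g ∈ G j, MvPolynomial.aeval x g = 0) +
        - cnt (fun x : Fin m → FF p k => ∀ g ∈ insert (MvPolynomial.C (N : ℤ)) (G j),
          MvPolynomial.aeval x g = 0))) :=
    h86_closed_sum hC (aff ∅) Finset.univ (fun j p k =>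
      (cnt (fun x : Fin m → FF p k => ∀ g ∈ G j, MvPolynomial.aeval x g = 0) +
        - cnt (fun x : Fin m → FF p k => ∀ g ∈ insert (MvPolynomial.C (N : ℤ)) (G j),
          MvPolynomial.aeval x g = 0)))
      (fun j => hC.add (aff (G j)) (hC.neg (aff (insert (MvPolynomial.C (N : ℤ)) (G j)))))
  refine hC.congr (fun p k hk => ?_) hsum
  by_cases hp : (p : ℕ) ∣ N
  · have hz : ((N : ℤ) : FF p k) = 0 := (cast_FF_eq_zero p k N).2 hp
    unfold projCount
    rw [if_pos hp]
    apply Finset.sum_eq_zero
    intro j _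
    have : cnt (fun x : Fin m → FF p k => ∀ g ∈ insert (MvPolynomial.C (N : ℤ)) (G j),
          MvPolynomial.aeval x g = 0) =
        cnt (fun x : Fin m → FF p k => ∀ g ∈ G j, MvPolynomial.aeval x g = 0) := by
      apply cnt_congr
      intro x
      constructor
      · intro h g hg
        exact h g (Finset.mem_insert_of_mem hg)
      · intro h g hg
        rcases Finset.mem_insert.1 hg with rfl | hg
        · rw [MvPolynomial.aeval_C]
          exact hz
        · exact h g hg
    rw [this]
    ring
  · have hz : ((N : ℤ) : FF p k) ≠ 0 := fun h => hp ((cast_FF_eq_zero p k N).1 h)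
    have h1 := proj_formula hF N p hk
    rw [if_neg hp, h86_first m (fun v : Fin (m + 1) → FF p k =>
      ∀ f ∈ F, MvPolynomial.aeval v f = 0) (zeros_smul hF), card_FF p hk] at h1
    have h2 : ((p : ℤ) ^ k - 1) ≠ 0 := by
      have h10 : 1 < (p : ℕ) ^ k := Nat.one_lt_pow hk p.2.one_lt
      have : (1 : ℤ) < (p : ℤ) ^ k := by exact_mod_cast h10
      linarith
    rw [mul_left_cancel₀ h2 h1]
    apply Finset.sum_congr rfl
    intro j _
    have e1 : cnt (fun x : Fin m → FF p k => ∀ g ∈ insert (MvPolynomial.C (N : ℤ)) (G j),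
          MvPolynomial.aeval x g = 0) = 0 := by
      unfold cnt
      have : IsEmpty {x : Fin m → FF p k // ∀ g ∈ insert (MvPolynomial.C (N : ℤ)) (G j),
          MvPolynomial.aeval x g = 0} := by
        constructor
        rintro ⟨x, hx⟩
        have := hx _ (Finset.mem_insert_self _ _)
        rw [MvPolynomial.aeval_C] at this
        exact hz this
      rw [Nat.card_of_isEmpty]
      rfl
    rw [e1, neg_zero, add_zero]
    exact cnt_congr (fun x => hG (FF p k) j x)

end Pool.Agent.H90.HW
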