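import Pool.Agent.H90.HW.Stmts

/-!
Points of a linear section of a Segre variety and of its double cone; dehomogenisation.
-/

namespace Pool.Agent.H90.HW

open Pool.Agent.H73.Zeta
open scoped LinearAlgebra.Projectivization

/-- Two step version of `card_proj`. -/
theorem h86_card_proj_two {K : Type} [Field K] [Finite K] {a b : ℕ}
    (P : (Fin a → K) → (Fin b → K) → Prop)
    (h1 : ∀ (c : Kˣ) x y, P (c • x) y ↔ P x y) (h2 : ∀ (c : Kˣ) x y, P x (c • y) ↔ P x y) :
    ((Nat.card K : ℤ) - 1) * (((Nat.card K : ℤ) - 1) *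
      (Nat.card {z : ℙ K (Fin a → K) × ℙ K (Fin b → K) // P z.1.rep z.2.rep} : ℤ)) =
    cnt (fun z : (Fin a → K) × (Fin b → K) => z.1 ≠ 0 ∧ z.2 ≠ 0 ∧ P z.1 z.2) := by
  classical
  have := Fintype.ofFinite K
  have := Fintype.ofFinite (ℙ K (Fin a → K))
  have e1 : (Nat.card {z : ℙ K (Fin a → K) × ℙ K (Fin b → K) // P z.1.rep z.2.rep} : ℤ) =
      ∑ x : ℙ K (Fin a → K), cnt (fun y : ℙ K (Fin b → K) => P x.rep y.rep) :=
    cnt_prod (fun z : ℙ K (Fin a → K) × ℙ K (Fin b → K) => P z.1.rep z.2.rep)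
  have e2 : ∀ x : ℙ K (Fin a → K), ((Nat.card K : ℤ) - 1) *
      cnt (fun y : ℙ K (Fin b → K) => P x.rep y.rep) =
      cnt (fun y : Fin b → K => y ≠ 0 ∧ P x.rep y) := fun x =>
    card_proj (fun y : Fin b → K => P x.rep y) (fun c y => h2 c x.rep y)
  rw [e1, Finset.mul_sum, Finset.sum_congr rfl (fun x _ => e2 x)]
  rw [← cnt_prod (fun z : ℙ K (Fin a → K) × (Fin b → K) => z.2 ≠ 0 ∧ P z.1.rep z.2),
    cnt_prod' (fun z : ℙ K (Fin a → K) × (Fin b → K) => z.2 ≠ 0 ∧ P z.1.rep z.2),
    cnt_prod' (fun z : (Fin a → K) × (Fin b → K) => z.1 ≠ 0 ∧ z.2 ≠ 0 ∧ P z.1 z.2),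
    Finset.mul_sum]
  apply Finset.sum_congr rfl
  intro y _
  exact card_proj (fun x : Fin a → K => y ≠ 0 ∧ P x y)
    (fun c x => and_congr Iff.rfl (h1 c x y))

theorem cone : SCone := by
  intro K _ _ n a b T
  classical
  have := Fintype.ofFinite K
  have hL : ∀ (x : Fin a → K) (y : Fin b → K) (c : K) (i : Fin n),
      ∑ j, ∑ l, T i j l * (c • x) j * y l = c * ∑ j, ∑ l, T i j l * x j * y l := by
    intro x y c i
    rw [Finset.mul_sum]
    apply Finset.sum_congr rfl
    intro j _
    rw [Finset.mul_sum]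
    apply Finset.sum_congr rfl
    intro l _
    simp only [Pi.smul_apply, smul_eq_mul]
    ring
  have hR : ∀ (x : Fin a → K) (y : Fin b → K) (c : K) (i : Fin n),
      ∑ j, ∑ l, T i j l * x j * (c • y) l = c * ∑ j, ∑ l, T i j l * x j * y l := by
    intro x y c i
    rw [Finset.mul_sum]
    apply Finset.sum_congr rfl
    intro j _
    rw [Finset.mul_sum]
    apply Finset.sum_congr rfl
    intro l _
    simp only [Pi.smul_apply, smul_eq_mul]
    ring
  have key := h86_card_proj_two (K := K) (a := a) (b := b)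
    (fun x y => ∀ i, ∑ j, ∑ l, T i j l * x j * y l = 0)
    (fun c x y => forall_congr' fun i => by
      rw [show (c • x : Fin a → K) = (c : K) • x from rfl, hL]
      constructor
      · intro h
        exact (mul_eq_zero.1 h).resolve_left c.ne_zero
      · intro h
        rw [h, mul_zero])
    (fun c x y => forall_congr' fun i => by
      rw [show (c • y : Fin b → K) = (c : K) • y from rfl, hR]
      constructor
      · intro h
        exact (mul_eq_zero.1 h).resolve_left c.ne_zero
      · intro h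
        rw [h, mul_zero])
  rw [key]
  have h0 : ∀ (x : Fin a → K) (y : Fin b → K), (x = 0 ∨ y = 0) →
      ∀ i, ∑ j, ∑ l, T i j l * x j * y l = 0 := by
    rintro x y (rfl | rfl) i <;> simp
  have e1 : cnt (fun z : (Fin a → K) × (Fin b → K) => z.1 = 0 ∨ z.2 = 0) =
      (Nat.card K : ℤ) ^ a + (Nat.card K : ℤ) ^ b - 1 := by
    rw [cnt_prod]
    have : ∀ x : Fin a → K, cnt (fun y : Fin b → K => x = 0 ∨ y = 0) =
        1 + (if x = 0 then (Nat.card K : ℤ) ^ b - 1 else 0) := by
      intro x
      by_cases hx : x = 0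
      · rw [if_pos hx]
        have : cnt (fun y : Fin b → K => x = 0 ∨ y = 0) = cnt (fun _ : Fin b → K => True) :=
          cnt_congr fun y => by simp [hx]
        rw [this, cnt_true, card_fun, Fintype.card_fin]
        ring
      · rw [if_neg hx]
        have : cnt (fun y : Fin b → K => x = 0 ∨ y = 0) = cnt (fun y : Fin b → K => y = 0) :=
          cnt_congr fun y => by simp [hx]
        rw [this, cnt_eq]
        ring
    rw [Finset.sum_congr rfl (fun x _ => this x), Finset.sum_add_distrib, Finset.sum_ite_eq']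
    simp only [Finset.mem_univ, if_true, Finset.sum_const, Finset.card_univ, nsmul_eq_mul,
      mul_one, ← Nat.card_eq_fintype_card, card_fun, Nat.card_fin]
    ring
  have e2 : cnt (fun z : (Fin a → K) × (Fin b → K) =>
      ∀ i, ∑ j, ∑ l, T i j l * z.1 j * z.2 l = 0) =
      cnt (fun z : (Fin a → K) × (Fin b → K) => z.1 ≠ 0 ∧ z.2 ≠ 0 ∧
        ∀ i, ∑ j, ∑ l, T i j l * z.1 j * z.2 l = 0) +
      cnt (fun z : (Fin a → K) × (Fin b → K) => z.1 = 0 ∨ z.2 = 0) := by
    rw [cnt_sum, cnt_sum, cnt_sum, ← Finset.sum_add_distrib]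
    apply Finset.sum_congr rfl
    rintro ⟨x, y⟩ _
    by_cases hx : x = 0
    · have := h0 x y (Or.inl hx)
      simp [hx]
    · by_cases hy : y = 0
      · have := h0 x y (Or.inr hy)
        simp [hy]
      · simp [hx, hy]
  rw [e2, e1]
  ring

theorem dehom : SDehom := by
  intro K _ _ m a b T
  classical
  have := Fintype.ofFinite K
  let E : K × ((Fin m → K) × (Fin b → K)) ≃ (Fin (m + 1) → K) × (Fin b → K) :=
    { toFun := fun z => (Fin.cons z.1 z.2.1, z.2.2)
      invFun := fun u => (u.1 0, (Fin.tail u.1, u.2))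
      left_inv := fun z => by simp
      right_inv := fun u => by simp }
  rw [← cnt_equiv E, cnt_prod]
  have hL : ∀ (x : Fin (m + 1) → K) (y : Fin b → K) (c : K) (j : Fin a),
      ∑ i, ∑ l, T i j l * (c • x) i * y l = c * ∑ i, ∑ l, T i j l * x i * y l := by
    intro x y c j
    rw [Finset.mul_sum]
    apply Finset.sum_congr rfl
    intro i _
    rw [Finset.mul_sum]
    apply Finset.sum_congr rfl
    intro l _
    simp only [Pi.smul_apply, smul_eq_mul]
    ring
  have h0 : ∀ c : K, cnt (fun z : (Fin m → K) × (Fin b → K) =>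
      ∀ j, ∑ i, ∑ l, T i j l * (E (c, z)).1 i * (E (c, z)).2 l = 0) =
      if c = 0 then cnt (fun z : (Fin m → K) × (Fin b → K) =>
          ∀ j, ∑ i : Fin m, ∑ l, T i.succ j l * z.1 i * z.2 l = 0)
        else cnt (fun z : (Fin m → K) × (Fin b → K) =>
          ∀ j, ∑ i, ∑ l, T i j l * (Fin.cons 1 z.1 : Fin (m + 1) → K) i * z.2 l = 0) := by
    intro c
    split_ifs with hc
    · apply cnt_congr
      rintro ⟨x, y⟩
      subst hc
      apply forall_congr'
      intro j
      have : ∑ i, ∑ l, T i j l * (E (0, (x, y))).1 i * (E (0, (x, y))).2 l =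
          ∑ i : Fin m, ∑ l, T i.succ j l * x i * y l := by
        rw [Fin.sum_univ_succ]
        simp [E]
      rw [this]
    · let e : ((Fin m → K) × (Fin b → K)) ≃ ((Fin m → K) × (Fin b → K)) :=
        (MulAction.toPerm (Units.mk0 c hc) : (Fin m → K) ≃ (Fin m → K)).prodCongr (Equiv.refl _)
      rw [← cnt_equiv e]
      apply cnt_congr
      rintro ⟨x, y⟩
      have h1 : (E (c, e (x, y))).1 = c • (Fin.cons 1 x : Fin (m + 1) → K) := by
        funext i
        refine Fin.cases ?_ (fun i => ?_) i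
        · simp [E]
        · simp [E, e, Units.smul_def]
      have h2 : (E (c, e (x, y))).2 = y := rfl
      rw [h1, h2]
      apply forall_congr'
      intro j
      rw [hL]
      constructor
      · intro h
        exact (mul_eq_zero.1 h).resolve_left hc
      · intro h
        rw [h, mul_zero]
  rw [Finset.sum_congr rfl (fun c _ => h0 c), ← Finset.add_sum_erase _ _ (Finset.mem_univ (0 : K)),
    if_pos rfl, add_comm]
  congr 1
  rw [Finset.sum_congr rfl (g := fun _ => cnt (fun z : (Fin m → K) × (Fin b → K) =>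
    ∀ j, ∑ i, ∑ l, T i j l * (Fin.cons 1 z.1 : Fin (m + 1) → K) i * z.2 l = 0))
    (fun c hc => if_neg (Finset.ne_of_mem_erase hc)), Finset.sum_const,
    Finset.card_erase_of_mem (Finset.mem_univ _), nsmul_eq_mul, Finset.card_univ,
    Nat.cast_sub Fintype.card_pos, Nat.card_eq_fintype_card]
  simp

end Pool.Agent.H90.HW
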